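import Pool.Agent.H76.QE.Targets

set_option autoImplicit false

open Finset Pool.Agent.H76.QE
open Pool.Agent.H1.LP (supp ip comb kk S_DISP S_COL S_SMALL)

namespace Pool.Agent.H5.QD

theorem mem_supp {p B : ℕ} (l : Fin B → ZMod p) (j : Fin B) : j ∈ supp l ↔ l j ≠ 0 := by
  simp [supp]

/-- extension by zero -/
noncomputable def ex {p m M : ℕ} (e : Fin m → Fin M) (C : Fin m → ZMod p) : Fin M → ZMod p :=
  Function.extend e C 0

theorem ex_apply {p m M : ℕ} {e : Fin m → Fin M} (he : Function.Injective e)
    (C : Fin m → ZMod p) (i : Fin m) : ex e C (e i) = C i :=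
  he.extend_apply C 0 i

theorem ex_off {p m M : ℕ} {e : Fin m → Fin M} (C : Fin m → ZMod p) {i : Fin M}
    (hi : ¬ ∃ a, e a = i) : ex e C i = 0 := by
  unfold ex
  rw [Function.extend_apply' _ _ _ hi]
  rfl

theorem supp_ex {p m M : ℕ} {e : Fin m → Fin M} (he : Function.Injective e)
    (C : Fin m → ZMod p) : supp (ex e C) = (supp C).map ⟨e, he⟩ := by
  ext i
  rw [mem_supp, Finset.mem_map]
  constructor
  · intro h
    by_cases hi : ∃ a, e a = i
    · obtain ⟨a, rfl⟩ := hi
      refine ⟨a, ?_, rfl⟩
      rw [mem_supp]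
      rwa [ex_apply he] at h
    · exact absurd (ex_off C hi) h
  · rintro ⟨a, ha, rfl⟩
    rw [mem_supp] at ha
    show ex e C (e a) ≠ 0
    rwa [ex_apply he]

theorem card_ex {p m M : ℕ} {e : Fin m → Fin M} (he : Function.Injective e)
    (C : Fin m → ZMod p) : (supp (ex e C)).card = (supp C).card := by
  rw [supp_ex he, Finset.card_map]

theorem comb_ex {p m M N : ℕ} {e : Fin m → Fin M} (he : Function.Injective e)
    (A : Fin M → Fin N → ZMod p) (C : Fin m → ZMod p) :
    comb A (ex e C) = comb (fun i => A (e i)) C := by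
  funext j
  unfold comb
  refine (Fintype.sum_of_injective e he _ _ ?_ ?_).symm
  · intro i hi
    have : ¬ ∃ a, e a = i := fun h => hi h
    rw [ex_off C this, zero_mul]
  · intro i
    rw [ex_apply he]

theorem zer_zero {p N : ℕ} : (zer (0 : Fin N → ZMod p)).card = N := by
  simp [zer]

theorem pf_DEL (hS : S_SMALL) : T_DEL := by
  intro p M₀ N k R t₀ t₁ z₀ _ T₀ A₀ hk hsupp hW hz h2t h2k hR
  obtain ⟨U, hU, hU2⟩ := hS p N M₀ t₀ 0 A₀ (by
    intro c hc1 hc2
    by_contra hcon
    have h0 : (supp (comb A₀ c)).card = 0 := by omega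
    rw [Finset.card_eq_zero] at h0
    have hc0 : comb A₀ c = 0 := by
      funext j
      by_contra hj
      have : j ∈ supp (comb A₀ c) := (mem_supp _ _).2 hj
      rw [h0] at this
      exact absurd this (Finset.notMem_empty j)
    have := hW c hc1 (hc2.trans h2t)
    rw [hc0, zer_zero] at this
    omega)
  -- an injection into the complement of `U`
  have hcard : Fintype.card (Fin (R + R)) ≤ Fintype.card {i : Fin M₀ // i ∉ U} := by
    rw [Fintype.card_fin, Fintype.card_subtype_compl]
    simp only [Fintype.card_fin, Fintype.card_coe]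
    omega
  obtain ⟨f⟩ := Function.Embedding.nonempty_of_card_le hcard
  obtain ⟨e, he, heU⟩ : ∃ e : Fin (R + R) → Fin M₀, Function.Injective e ∧ ∀ i, e i ∉ U :=
    ⟨fun i => (f i).1, fun a b hab => f.injective (Subtype.ext hab), fun i => (f i).2⟩
  have hT : ∀ i : Fin R, ∃ S : Finset (Fin N),
      (T₀ (e (Fin.castAdd R i)) ∪ T₀ (e (Fin.natAdd R i))) ⊆ S ∧ S.card = 2 * k := by
    intro i
    refine Finset.exists_superset_card_eq ?_ (by simpa using h2k)
    refine (Finset.card_union_le _ _).trans ?_
    rw [hk, hk]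
    omega
  choose T hT1 hT2 using hT
  have hW' : Wide (fun i => A₀ (e i)) t₀ t₁ z₀ := by
    intro C h1 h2
    rw [← comb_ex he]
    exact hW _ (by rwa [card_ex he]) (by rwa [card_ex he])
  refine ⟨T, fun i => A₀ (e i), hT2, ?_, hW', ?_⟩
  · intro i
    exact ⟨(hsupp _).trans (Finset.subset_union_left.trans (hT1 i)),
      (hsupp _).trans (Finset.subset_union_right.trans (hT1 i))⟩
  · intro C hC h0
    by_cases hlt : t₀ < (supp C).card
    · have := hW' C hlt hC
      rw [h0, zer_zero] at this
      omega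
    · have hs := hU2 (ex e C) (by rw [card_ex he]; omega) (by rw [comb_ex he]; exact h0)
      funext i
      by_contra hi
      have hm : e i ∈ supp (ex e C) := by
        rw [mem_supp, ex_apply he]
        exact hi
      exact heU i (hs hm)

end Pool.Agent.H5.QD
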